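import Pool.Agent.Lib.MP_af3a4a_an.P1.CHK.DATA.N4.K0
import Pool.Agent.Lib.MP_af3a4a_an.P1.CHK.DATA.N4.K1
import Pool.Agent.Lib.MP_af3a4a_an.P1.CHK.DATA.N4.K2

/-! glue for 4 <= N <= 4 (generated) -/

set_option autoImplicit false
set_option maxRecDepth 100000

namespace Pool.Agent.Lib.MP_af3a4a_an.P1.CHK.DATA.N4

open BOX

theorem g0 : ChunkP 4 4 0 1024 0 101 0 1920 := ChunkP.r k0 k1
theorem g1 : ChunkP 4 4 1536 2048 0 64 0 1920 := ChunkP.g k3 k4
theorem g2 : ChunkP 4 4 1536 2048 0 101 0 1920 := ChunkP.g g1 k5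
theorem g3 : ChunkP 4 4 1024 2048 0 101 0 1920 := ChunkP.r k2 g2
theorem g4 : ChunkP 4 4 0 2048 0 101 0 1920 := ChunkP.r g0 g3
theorem g5 : ChunkP 4 4 2048 2560 16 32 1200 1920 := ChunkP.g k9 k10
theorem g6 : ChunkP 4 4 2048 2560 16 32 1056 1920 := ChunkP.R k8 g5
theorem g7 : ChunkP 4 4 2048 2560 16 32 0 1920 := ChunkP.R k7 g6
theorem g8 : ChunkP 4 4 2048 2560 0 32 0 1920 := ChunkP.g k6 g7
theorem g9 : ChunkP 4 4 2048 2560 32 40 1392 1920 := ChunkP.r k15 k16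
theorem g10 : ChunkP 4 4 2048 2560 32 40 1344 1920 := ChunkP.R k14 g9
theorem g11 : ChunkP 4 4 2048 2560 32 40 1152 1920 := ChunkP.R k13 g10
theorem g12 : ChunkP 4 4 2048 2560 40 48 1392 1920 := ChunkP.r k19 k20
theorem g13 : ChunkP 4 4 2048 2560 40 48 1344 1920 := ChunkP.R k18 g12
theorem g14 : ChunkP 4 4 2048 2560 40 48 1152 1920 := ChunkP.R k17 g13
theorem g15 : ChunkP 4 4 2048 2560 32 48 1152 1920 := ChunkP.g g11 g14
theorem g16 : ChunkP 4 4 2048 2560 32 48 1056 1920 := ChunkP.R k12 g15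
theorem g17 : ChunkP 4 4 2048 2560 32 48 0 1920 := ChunkP.R k11 g16
theorem g18 : ChunkP 4 4 2048 2560 48 56 1392 1920 := ChunkP.r k25 k26
theorem g19 : ChunkP 4 4 2048 2560 48 56 1344 1920 := ChunkP.R k24 g18
theorem g20 : ChunkP 4 4 2048 2560 48 56 1152 1920 := ChunkP.R k23 g19
theorem g21 : ChunkP 4 4 2048 2560 48 64 1152 1920 := ChunkP.g g20 k27
theorem g22 : ChunkP 4 4 2048 2560 48 64 1104 1920 := ChunkP.R k22 g21
theorem g23 : ChunkP 4 4 2048 2560 48 64 0 1920 := ChunkP.R k21 g22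
theorem g24 : ChunkP 4 4 2048 2560 32 64 0 1920 := ChunkP.g g17 g23
theorem g25 : ChunkP 4 4 2048 2560 0 64 0 1920 := ChunkP.g g8 g24
theorem g26 : ChunkP 4 4 2048 2560 0 101 0 1920 := ChunkP.g g25 k28
theorem g27 : ChunkP 4 4 2560 3072 0 16 1200 1920 := ChunkP.g k32 k33
theorem g28 : ChunkP 4 4 2560 3072 0 16 1152 1920 := ChunkP.R k31 g27
theorem g29 : ChunkP 4 4 2560 3072 0 16 960 1920 := ChunkP.R k30 g28
theorem g30 : ChunkP 4 4 2560 3072 0 16 0 1920 := ChunkP.R k29 g29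
theorem g31 : ChunkP 4 4 2560 3072 16 24 1200 1920 := ChunkP.r k37 k38
theorem g32 : ChunkP 4 4 2560 3072 16 24 1056 1920 := ChunkP.R k36 g31
theorem g33 : ChunkP 4 4 2560 3072 24 32 1200 1920 := ChunkP.r k40 k41
theorem g34 : ChunkP 4 4 2560 3072 24 32 1056 1920 := ChunkP.R k39 g33
theorem g35 : ChunkP 4 4 2560 3072 16 32 1056 1920 := ChunkP.g g32 g34
theorem g36 : ChunkP 4 4 2560 3072 16 32 960 1920 := ChunkP.R k35 g35
theorem g37 : ChunkP 4 4 2560 3072 16 32 0 1920 := ChunkP.R k34 g36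
theorem g38 : ChunkP 4 4 2560 3072 0 32 0 1920 := ChunkP.g g30 g37
theorem g39 : ChunkP 4 4 2816 3072 32 40 1344 1920 := ChunkP.g k48 k49
theorem g40 : ChunkP 4 4 2816 3072 32 40 1296 1920 := ChunkP.R k47 g39
theorem g41 : ChunkP 4 4 2816 3072 32 40 1152 1920 := ChunkP.R k46 g40
theorem g42 : ChunkP 4 4 2560 3072 32 40 1152 1920 := ChunkP.r k45 g41
theorem g43 : ChunkP 4 4 2560 3072 32 40 1056 1920 := ChunkP.R k44 g42
theorem g44 : ChunkP 4 4 2560 2816 40 48 1392 1920 := ChunkP.g k53 k54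
theorem g45 : ChunkP 4 4 2560 2816 40 48 1344 1920 := ChunkP.R k52 g44
theorem g46 : ChunkP 4 4 2560 2816 40 48 1152 1920 := ChunkP.R k51 g45
theorem g47 : ChunkP 4 4 2816 3072 40 48 1344 1920 := ChunkP.g k57 k58
theorem g48 : ChunkP 4 4 2816 3072 40 48 1296 1920 := ChunkP.R k56 g47
theorem g49 : ChunkP 4 4 2816 3072 40 48 1152 1920 := ChunkP.R k55 g48
theorem g50 : ChunkP 4 4 2560 3072 40 48 1152 1920 := ChunkP.r g46 g49
theorem g51 : ChunkP 4 4 2560 3072 40 48 1056 1920 := ChunkP.R k50 g50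
theorem g52 : ChunkP 4 4 2560 3072 32 48 1056 1920 := ChunkP.g g43 g51
theorem g53 : ChunkP 4 4 2560 3072 32 48 1008 1920 := ChunkP.R k43 g52
theorem g54 : ChunkP 4 4 2560 3072 32 48 0 1920 := ChunkP.R k42 g53
theorem g55 : ChunkP 4 4 2560 2816 48 56 1392 1920 := ChunkP.g k65 k66
theorem g56 : ChunkP 4 4 2560 2816 48 56 1344 1920 := ChunkP.R k64 g55
theorem g57 : ChunkP 4 4 2560 2816 48 56 1200 1920 := ChunkP.R k63 g56
theorem g58 : ChunkP 4 4 2816 3072 48 56 1392 1920 := ChunkP.g k70 k71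
theorem g59 : ChunkP 4 4 2816 3072 48 56 1344 1920 := ChunkP.R k69 g58
theorem g60 : ChunkP 4 4 2816 3072 48 56 1296 1920 := ChunkP.R k68 g59
theorem g61 : ChunkP 4 4 2816 3072 48 56 1200 1920 := ChunkP.R k67 g60
theorem g62 : ChunkP 4 4 2560 3072 48 56 1200 1920 := ChunkP.r g57 g61
theorem g63 : ChunkP 4 4 2560 3072 48 56 1152 1920 := ChunkP.R k62 g62
theorem g64 : ChunkP 4 4 2560 2816 56 64 1200 1920 := ChunkP.R k73 k74
theorem g65 : ChunkP 4 4 2560 3072 56 64 1200 1920 := ChunkP.r g64 k75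
theorem g66 : ChunkP 4 4 2560 3072 56 64 1152 1920 := ChunkP.R k72 g65
theorem g67 : ChunkP 4 4 2560 3072 48 64 1152 1920 := ChunkP.g g63 g66
theorem g68 : ChunkP 4 4 2560 3072 48 64 1104 1920 := ChunkP.R k61 g67
theorem g69 : ChunkP 4 4 2560 3072 48 64 1056 1920 := ChunkP.R k60 g68
theorem g70 : ChunkP 4 4 2560 3072 48 64 0 1920 := ChunkP.R k59 g69
theorem g71 : ChunkP 4 4 2560 3072 32 64 0 1920 := ChunkP.g g54 g70
theorem g72 : ChunkP 4 4 2560 3072 0 64 0 1920 := ChunkP.g g38 g71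
theorem g73 : ChunkP 4 4 2560 3072 0 101 0 1920 := ChunkP.g g72 k76
theorem g74 : ChunkP 4 4 2048 3072 0 101 0 1920 := ChunkP.r g26 g73
theorem g75 : ChunkP 4 4 3072 3584 8 16 816 1920 := ChunkP.r k80 k81
theorem g76 : ChunkP 4 4 3072 3584 0 16 816 1920 := ChunkP.g k79 g75
theorem g77 : ChunkP 4 4 3072 3584 0 16 528 1920 := ChunkP.R k78 g76
theorem g78 : ChunkP 4 4 3072 3584 0 16 0 1920 := ChunkP.R k77 g77
theorem g79 : ChunkP 4 4 3072 3584 16 24 864 1920 := ChunkP.r k85 k86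
theorem g80 : ChunkP 4 4 3072 3584 16 24 768 1920 := ChunkP.R k84 g79
theorem g81 : ChunkP 4 4 3072 3584 24 32 912 1920 := ChunkP.r k88 k89
theorem g82 : ChunkP 4 4 3072 3584 24 32 768 1920 := ChunkP.R k87 g81
theorem g83 : ChunkP 4 4 3072 3584 16 32 768 1920 := ChunkP.g g80 g82
theorem g84 : ChunkP 4 4 3072 3584 16 32 576 1920 := ChunkP.R k83 g83
theorem g85 : ChunkP 4 4 3072 3584 16 32 0 1920 := ChunkP.R k82 g84
theorem g86 : ChunkP 4 4 3072 3584 0 32 0 1920 := ChunkP.g g78 g85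
theorem g87 : ChunkP 4 4 3072 3328 32 40 1200 1920 := ChunkP.g k94 k95
theorem g88 : ChunkP 4 4 3072 3328 32 40 1008 1920 := ChunkP.R k93 g87
theorem g89 : ChunkP 4 4 3328 3584 32 40 1104 1920 := ChunkP.g k97 k98
theorem g90 : ChunkP 4 4 3328 3584 32 40 1008 1920 := ChunkP.R k96 g89
theorem g91 : ChunkP 4 4 3072 3584 32 40 1008 1920 := ChunkP.r g88 g90
theorem g92 : ChunkP 4 4 3072 3584 32 40 912 1920 := ChunkP.R k92 g91
theorem g93 : ChunkP 4 4 3072 3328 44 48 1392 1920 := ChunkP.r k105 k106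
theorem g94 : ChunkP 4 4 3072 3328 44 48 1344 1920 := ChunkP.R k104 g93
theorem g95 : ChunkP 4 4 3072 3328 44 48 1296 1920 := ChunkP.R k103 g94
theorem g96 : ChunkP 4 4 3072 3328 44 48 1200 1920 := ChunkP.R k102 g95
theorem g97 : ChunkP 4 4 3072 3328 40 48 1200 1920 := ChunkP.g k101 g96
theorem g98 : ChunkP 4 4 3072 3328 40 48 1056 1920 := ChunkP.R k100 g97
theorem g99 : ChunkP 4 4 3328 3584 40 48 1152 1920 := ChunkP.g k108 k109
theorem g100 : ChunkP 4 4 3328 3584 40 48 1056 1920 := ChunkP.R k107 g99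
theorem g101 : ChunkP 4 4 3072 3584 40 48 1056 1920 := ChunkP.r g98 g100
theorem g102 : ChunkP 4 4 3072 3584 40 48 912 1920 := ChunkP.R k99 g101
theorem g103 : ChunkP 4 4 3072 3584 32 48 912 1920 := ChunkP.g g92 g102
theorem g104 : ChunkP 4 4 3072 3584 32 48 576 1920 := ChunkP.R k91 g103
theorem g105 : ChunkP 4 4 3072 3584 32 48 0 1920 := ChunkP.R k90 g104
theorem g106 : ChunkP 4 4 3072 3328 48 52 1200 1920 := ChunkP.R k114 k115
theorem g107 : ChunkP 4 4 3072 3328 48 56 1200 1920 := ChunkP.g g106 k116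
theorem g108 : ChunkP 4 4 3072 3328 48 56 1104 1920 := ChunkP.R k113 g107
theorem g109 : ChunkP 4 4 3072 3584 48 56 1104 1920 := ChunkP.r g108 k117
theorem g110 : ChunkP 4 4 3072 3584 48 56 960 1920 := ChunkP.R k112 g109
theorem g111 : ChunkP 4 4 3072 3584 48 64 960 1920 := ChunkP.g g110 k118
theorem g112 : ChunkP 4 4 3072 3584 48 64 624 1920 := ChunkP.R k111 g111
theorem g113 : ChunkP 4 4 3072 3584 48 64 0 1920 := ChunkP.R k110 g112
theorem g114 : ChunkP 4 4 3072 3584 32 64 0 1920 := ChunkP.g g105 g113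
theorem g115 : ChunkP 4 4 3072 3584 0 64 0 1920 := ChunkP.g g86 g114
theorem g116 : ChunkP 4 4 3072 3584 0 101 0 1920 := ChunkP.g g115 k119
theorem g117 : ChunkP 4 4 3584 4096 0 8 672 1920 := ChunkP.r k122 k123
theorem g118 : ChunkP 4 4 3584 4096 0 16 672 1920 := ChunkP.g g117 k124
theorem g119 : ChunkP 4 4 3584 4096 0 16 528 1920 := ChunkP.R k121 g118
theorem g120 : ChunkP 4 4 3584 4096 0 16 0 1920 := ChunkP.R k120 g119
theorem g121 : ChunkP 4 4 3584 4096 0 32 0 1920 := ChunkP.g g120 k125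
theorem g122 : ChunkP 4 4 3584 4096 32 48 816 1920 := ChunkP.g k128 k129
theorem g123 : ChunkP 4 4 3584 4096 32 48 576 1920 := ChunkP.R k127 g122
theorem g124 : ChunkP 4 4 3584 4096 32 48 0 1920 := ChunkP.R k126 g123
theorem g125 : ChunkP 4 4 3584 4096 48 64 912 1728 := ChunkP.g k131 k132
theorem g126 : ChunkP 4 4 3584 4096 48 64 912 1920 := ChunkP.R g125 k133
theorem g127 : ChunkP 4 4 3584 4096 48 64 0 1920 := ChunkP.R k130 g126
theorem g128 : ChunkP 4 4 3584 4096 32 64 0 1920 := ChunkP.g g124 g127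
theorem g129 : ChunkP 4 4 3584 4096 0 64 0 1920 := ChunkP.g g121 g128
theorem g130 : ChunkP 4 4 3584 4096 0 101 0 1920 := ChunkP.g g129 k134
theorem g131 : ChunkP 4 4 3072 4096 0 101 0 1920 := ChunkP.r g116 g130
theorem g132 : ChunkP 4 4 2048 4096 0 101 0 1920 := ChunkP.r g74 g131
theorem g133 : ChunkP 4 4 0 4096 0 101 0 1920 := ChunkP.r g4 g132

/-- the whole box -/
theorem allBox : ChunkP 4 4 0 4096 0 101 0 1920 := g133

theorem full {N : ℕ} (hNa : 4 ≤ N) (hNb : N ≤ 4) {z w : Fin N → ℂ} {R : ℝ} {σ : Fin N → ℂ}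
    (hC : Pool.Agent.Lib.MP_af3a4a_an.P1.H80.Cfg2 N z w R σ) : ((1920 : ℕ) : ℝ) / 1024 < R := ChunkP.full allBox hNa hNb hC

end Pool.Agent.Lib.MP_af3a4a_an.P1.CHK.DATA.N4
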